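import Pool.Agent.helper17.MLG.Spec

/-!
# MP_84f457_gt, project mlg, row MID: midpoint concavity of the profile
-/

set_option autoImplicit false
set_option linter.unusedSectionVars false

namespace Pool.Agent.MLG

open MeasureTheory Set Filter Topology Module
open scoped ENNReal ContDiff

theorem MID_le (V : Type) [NormedAddCommGroup V] [InnerProductSpace ℝ V] [FiniteDimensional ℝ V]
    [MeasurableSpace V] [BorelSpace V] [Group V] (E : Set V) (v : ℝ) (hE : MeasurableSet E)
    (hv : vol V E = ENNReal.ofReal v) : prof V v ≤ per E :=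
  iInf_le_of_le E (iInf_le_of_le hE (iInf_le_of_le hv le_rfl))

theorem MID (hMES : MES_stmt) (hPER : PER_stmt) (hOVL : OVL_stmt) (hFIN : FIN_stmt) : MID_stmt := by
  intro V _ _ _ _ _ _ hV hn v s hs hsv
  have hT := top hV
  have hH := (hMES V hV).1
  have hfin : ∀ w : ℝ, 0 < w → prof V w ≠ ⊤ := by
    intro w hw
    obtain ⟨E, hE, hEv, hEp⟩ := hFIN V hV hn w hw
    exact ((MID_le V E w hE hEv).trans_lt hEp).ne
  have key : (prof V (v - s) + prof V (v + s)) / 2 ≤ prof V v := by
    refine le_iInf fun E => le_iInf fun hE => le_iInf fun hEv => ?_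
    have hEt : vol V E ≠ ⊤ := by rw [hEv]; exact ENNReal.ofReal_ne_top
    obtain ⟨g, hg⟩ := hOVL V hV hn E hE hEt (ENNReal.ofReal (v - s))
      (ENNReal.ofReal_pos.2 (by linarith)) (by
        rw [hEv]
        exact ENNReal.ofReal_le_ofReal (by linarith))
    have him : (fun x => g * x) '' E = (fun x => g⁻¹ * x) ⁻¹' E := Set.image_mul_left
    have hgE : MeasurableSet ((fun x => g * x) '' E) := by
      rw [him]
      exact hE.preimage (continuous_const_mul g⁻¹).measurable
    have hgv : vol V ((fun x => g * x) '' E) = ENNReal.ofReal v := by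
      rw [him, measure_preimage_mul, hEv]
    have hU : vol V (E ∪ (fun x => g * x) '' E) = ENNReal.ofReal (v + s) := by
      have h1 := measure_union_add_inter (μ := vol V) E hgE
      rw [hg, hEv, hgv, ← ENNReal.ofReal_add (by linarith) (by linarith)] at h1
      have h2 : ENNReal.ofReal (v + v) = ENNReal.ofReal (v + s) + ENNReal.ofReal (v - s) := by
        rw [← ENNReal.ofReal_add (by linarith) (by linarith)]
        congr 1
        ring
      rw [h2] at h1
      exact (ENNReal.add_left_inj ENNReal.ofReal_ne_top).1 h1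
    obtain ⟨-, -, -, p4, p5⟩ := hPER V hV
    have h3 := p5 E _ hE hgE
    rw [p4 g E hE] at h3
    have h4 := MID_le V _ (v - s) (hE.inter hgE) hg
    have h5 := MID_le V _ (v + s) (hE.union hgE) hU
    rw [ENNReal.div_le_iff (by norm_num) (by norm_num), mul_two]
    exact (add_le_add h4 h5).trans h3
  rw [ENNReal.div_le_iff (by norm_num) (by norm_num)] at key
  have h6 := ENNReal.toReal_mono (ENNReal.mul_ne_top (hfin v (by linarith)) (by norm_num)) key
  rw [ENNReal.toReal_add (hfin _ (by linarith)) (hfin _ (by linarith)), ENNReal.toReal_mul] at h6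
  unfold Ip
  have h7 : (2 : ℝ≥0∞).toReal = 2 := by norm_num
  rw [h7] at h6
  linarith

end Pool.Agent.MLG
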